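import Mathlib

/-!
The Takagi function has a countably infinite level set at an ordinate that is not the value of the
Takagi function at a dyadic rational; the ordinate is `49 / 2050`.

For `j ≥ 0` put `N j y = {x ∈ [0,1] : T x + j x = y}`. Splitting off the first binary digit of `x`
sends `N j y` to `N (j+1) (2y)` (digit `0`) and to `N (j-1) (2y-j-1)` (digit `1`), and `N j y` is empty
unless `0 ≤ y ≤ j + (2/3) 2^(-j)`. Starting from `(0, 49/2050)` only `87` states `(j, y)` are reachable,
and the transition graph contains exactly two cycles, one above the other, both avoiding `j = 0`.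
-/

set_option autoImplicit false

namespace Pool.Agent.Results.MP_4a5b11_an.NonDyadicCountable

open Set

/-- The distance from `x` to the nearest integer. -/
noncomputable def phi (x : ℝ) : ℝ := |x - round x|

/-- The Takagi function. -/
noncomputable def T (x : ℝ) : ℝ := ∑' n : ℕ, phi (2 ^ n * x) / 2 ^ n

/-- The level set of the Takagi function (on `[0,1]`) at the ordinate `y`. -/
def levelSet (y : ℝ) : Set ℝ := {x : ℝ | x ∈ Icc (0:ℝ) 1 ∧ T x = y}

/-! ### Basic properties of `phi` and `T` -/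

lemma phi_nonneg (x : ℝ) : 0 ≤ phi x := abs_nonneg _

lemma phi_le_half (x : ℝ) : phi x ≤ 1 / 2 := abs_sub_round x

lemma phi_le_abs_sub (x : ℝ) (n : ℤ) : phi x ≤ |x - n| := round_le x n

lemma phi_add_int (x : ℝ) (n : ℤ) : phi (x + n) = phi x := by
  unfold phi
  rw [round_add_intCast]
  push_cast
  congr 1
  ring

lemma phi_neg (x : ℝ) : phi (-x) = phi x := by
  apply le_antisymm
  · have := phi_le_abs_sub (-x) (-(round x))
    push_cast at this
    refine this.trans (le_of_eq ?_)
    unfold phi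
    rw [← abs_neg]
    congr 1
    ring
  · have := phi_le_abs_sub x (-(round (-x)))
    push_cast at this
    refine this.trans (le_of_eq ?_)
    unfold phi
    rw [← abs_neg]
    congr 1
    ring

lemma phi_of_mem {x : ℝ} (h0 : 0 ≤ x) (h1 : x ≤ 1 / 2) : phi x = x := by
  apply le_antisymm
  · have := phi_le_abs_sub x 0
    simpa [abs_of_nonneg h0] using this
  · unfold phi
    rcases le_or_gt (round x) 0 with h | h
    · have h' : (round x : ℝ) ≤ 0 := by exact_mod_cast h
      rw [abs_of_nonneg (by linarith)]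
      linarith
    · have h' : (1 : ℝ) ≤ (round x : ℝ) := by exact_mod_cast h
      rw [abs_of_nonpos (by linarith)]
      linarith

lemma phi_of_mem' {x : ℝ} (h0 : 1 / 2 ≤ x) (h1 : x ≤ 1) : phi x = 1 - x := by
  have h2 : phi x = phi (1 - x) := by
    rw [← phi_neg x, ← phi_add_int (-x) 1]
    congr 1
    push_cast
    ring
  rw [h2]
  exact phi_of_mem (by linarith) (by linarith)

lemma phi_int (n : ℤ) : phi (n : ℝ) = 0 := by
  unfold phi
  simp

lemma summand_le (x : ℝ) (n : ℕ) : phi (2 ^ n * x) / 2 ^ n ≤ (1 / 2) * (1 / 2) ^ n := by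
  rw [one_div_pow, div_eq_mul_one_div]
  have h1 := phi_le_half (2 ^ n * x)
  have h2 : (0:ℝ) < 1 / 2 ^ n := by positivity
  nlinarith

lemma summand_nonneg (x : ℝ) (n : ℕ) : 0 ≤ phi (2 ^ n * x) / 2 ^ n :=
  div_nonneg (phi_nonneg _) (by positivity)

lemma summable_geo : Summable (fun n : ℕ => (1 / 2 : ℝ) * (1 / 2) ^ n) :=
  (summable_geometric_of_lt_one (by norm_num) (by norm_num)).mul_left _

lemma summable_T (x : ℝ) : Summable (fun n : ℕ => phi (2 ^ n * x) / 2 ^ n) :=
  Summable.of_nonneg_of_le (summand_nonneg x) (summand_le x) summable_geo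

lemma T_nonneg (x : ℝ) : 0 ≤ T x := tsum_nonneg (summand_nonneg x)

lemma T_le_one (x : ℝ) : T x ≤ 1 := by
  have h := (summable_T x).tsum_le_tsum (summand_le x) summable_geo
  have h2 : ∑' n : ℕ, (1 / 2 : ℝ) * (1 / 2) ^ n = 1 := by
    rw [tsum_mul_left, tsum_geometric_of_lt_one (by norm_num) (by norm_num)]
    norm_num
  unfold T
  linarith

/-- The de Rham functional equation. -/
lemma T_rec (x : ℝ) : T x = phi x + T (2 * x) / 2 := by
  unfold T
  rw [(summable_T x).tsum_eq_zero_add]
  have h1 : ∀ n : ℕ, phi (2 ^ (n + 1) * x) / 2 ^ (n + 1) = (phi (2 ^ n * (2 * x)) / 2 ^ n) * (1 / 2) := by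
    intro n
    rw [show (2:ℝ) ^ (n + 1) * x = 2 ^ n * (2 * x) by ring, pow_succ]
    field_simp
  simp_rw [h1]
  rw [tsum_mul_right]
  simp
  ring

lemma T_add_int (x : ℝ) (n : ℤ) : T (x + n) = T x := by
  unfold T
  congr 1
  funext k
  have : (2:ℝ) ^ k * (x + n) = 2 ^ k * x + ((2 ^ k * n : ℤ) : ℝ) := by push_cast; ring
  rw [this, phi_add_int]

lemma T_neg (x : ℝ) : T (-x) = T x := by
  unfold T
  congr 1
  funext k
  rw [show (2:ℝ) ^ k * (-x) = -(2 ^ k * x) by ring, phi_neg]

lemma T_one_sub (x : ℝ) : T (1 - x) = T x := by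
  rw [← T_neg x, ← T_add_int (-x) 1]
  congr 1
  push_cast
  ring

lemma T_int (n : ℤ) : T (n : ℝ) = 0 := by
  unfold T
  have h : ∀ k : ℕ, phi (2 ^ k * (n : ℝ)) / 2 ^ k = 0 := by
    intro k
    rw [show (2:ℝ) ^ k * (n : ℝ) = ((2 ^ k * n : ℤ) : ℝ) by push_cast; ring, phi_int, zero_div]
  simp [h]

lemma T_half {x : ℝ} (h0 : 0 ≤ x) (h1 : x ≤ 1) : T (x / 2) = x / 2 + T x / 2 := by
  rw [T_rec, phi_of_mem (by linarith) (by linarith)]
  congr 3
  ring

lemma T_half' {x : ℝ} (h0 : 0 ≤ x) (h1 : x ≤ 1) : T ((1 + x) / 2) = (1 - x) / 2 + T x / 2 := by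
  rw [T_rec, phi_of_mem' (by linarith) (by linarith)]
  have : 2 * ((1 + x) / 2) = x + ((1:ℤ) : ℝ) := by push_cast; ring
  rw [this, T_add_int]
  ring

lemma phi_two_terms (x : ℝ) : phi x + phi (2 * x) / 2 ≤ 1 / 2 := by
  have key : phi (2 * x) ≤ 1 - 2 * phi x := by
    unfold phi
    rcases le_total 0 (x - round x) with h | h
    · have h1 := phi_le_abs_sub (2 * x) (2 * round x + 1)
      have h2 := abs_sub_round x
      rw [abs_of_nonneg h] at h2 ⊢
      refine h1.trans ?_
      push_cast
      rw [abs_of_nonpos (by linarith)]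
      linarith
    · have h1 := phi_le_abs_sub (2 * x) (2 * round x - 1)
      have h2 := abs_sub_round x
      rw [abs_of_nonpos h] at h2 ⊢
      refine h1.trans ?_
      push_cast
      rw [abs_of_nonneg (by linarith)]
      linarith
  linarith

lemma T_le_two_thirds (x : ℝ) : T x ≤ 2 / 3 := by
  have key : ∀ (n : ℕ) (x : ℝ), T x ≤ 2 / 3 + (1 / 3) * (1 / 4) ^ n := by
    intro n
    induction n with
    | zero => intro x; have := T_le_one x; norm_num; linarith
    | succ n ih =>
      intro x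
      have h1 := T_rec x
      have h2 := T_rec (2 * x)
      have h3 := phi_two_terms x
      have h4 := ih (2 * (2 * x))
      rw [pow_succ]
      linarith
  have hlim : Filter.Tendsto (fun n : ℕ => (2:ℝ) / 3 + (1 / 3) * (1 / 4) ^ n) Filter.atTop
      (nhds (2 / 3 + (1 / 3) * 0)) := by
    apply Filter.Tendsto.add tendsto_const_nhds
    apply Filter.Tendsto.mul tendsto_const_nhds
    exact tendsto_pow_atTop_nhds_zero_of_lt_one (by norm_num) (by norm_num)
  have := ge_of_tendsto' hlim (fun n => key n x)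
  linarith

lemma T_third : T (1 / 3) = 2 / 3 := by
  have h1 := T_half (x := 2 / 3) (by norm_num) (by norm_num)
  have h2 := T_half' (x := 1 / 3) (by norm_num) (by norm_num)
  norm_num at h1 h2
  linarith

lemma phi_cont : Continuous phi := by
  have h : LipschitzWith 1 phi := by
    apply LipschitzWith.of_le_add
    intro x y
    have h1 := phi_le_abs_sub x (round y)
    have h2 : |x - round y| ≤ |x - y| + |y - round y| := by
      have := abs_add_le (x - y) (y - round y)
      simpa using this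
    rw [Real.dist_eq]
    unfold phi at *
    linarith
  exact h.continuous

lemma T_cont : Continuous T := by
  unfold T
  apply continuous_tsum (u := fun n : ℕ => (1 / 2 : ℝ) * (1 / 2) ^ n)
  · intro n
    exact (phi_cont.comp (continuous_const.mul continuous_id)).div_const _
  · exact summable_geo
  · intro n x
    rw [Real.norm_of_nonneg (summand_nonneg x n)]
    exact summand_le x n

/-- `T` takes every value in `[0, 2/3]` on `[0,1]`. -/
lemma T_surj {y : ℝ} (h0 : 0 ≤ y) (h1 : y ≤ 2 / 3) : ∃ x ∈ Icc (0:ℝ) 1, T x = y := by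
  have h := intermediate_value_Icc (a := (0:ℝ)) (b := 1 / 3) (by norm_num) T_cont.continuousOn
  rw [T_third] at h
  have h00 : T 0 = 0 := by exact_mod_cast T_int 0
  rw [h00] at h
  obtain ⟨x, hx, hxy⟩ := h ⟨h0, h1⟩
  exact ⟨x, ⟨hx.1, by linarith [hx.2]⟩, hxy⟩

lemma T_le_mul (j : ℕ) : ∀ u : ℝ, 0 ≤ u → u ≤ 1 → T u ≤ j * u + (2 / 3) / 2 ^ j := by
  induction j with
  | zero => intro u _ _; have := T_le_two_thirds u; simp; linarith
  | succ j ih =>
    intro u h0 h1
    rcases le_or_gt u (1 / 2) with h | h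
    · have e1 := T_half (x := 2 * u) (by linarith) (by linarith)
      have e2 := ih (2 * u) (by linarith) (by linarith)
      rw [show 2 * u / 2 = u by ring] at e1
      rw [e1, pow_succ]
      push_cast
      have : (2:ℝ) / 3 / (2 ^ j * 2) = (2 / 3 / 2 ^ j) / 2 := by field_simp
      rw [this]
      nlinarith
    · have e1 := T_le_two_thirds u
      have e3 : (0:ℝ) < (2 / 3) / 2 ^ (j + 1) := by positivity
      rcases Nat.eq_zero_or_pos j with hj | hj
      · subst hj
        norm_num
        linarith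
      · have : (1:ℝ) ≤ j := by exact_mod_cast hj
        push_cast
        nlinarith

/-! ### The sets `N j y` -/

/-- `N j y = {x ∈ [0,1] : T x + j x = y}`. -/
def N (j : ℕ) (y : ℝ) : Set ℝ := {x : ℝ | x ∈ Icc (0:ℝ) 1 ∧ T x + j * x = y}

lemma N_nonneg {j : ℕ} {y x : ℝ} (h : x ∈ N j y) : 0 ≤ y := by
  obtain ⟨⟨h0, _⟩, h2⟩ := h
  rw [← h2]
  have := T_nonneg x
  positivity

lemma N_le {j : ℕ} {y x : ℝ} (h : x ∈ N j y) : y ≤ j + (2 / 3) / 2 ^ j := by
  obtain ⟨⟨h0, h1⟩, h2⟩ := h
  have h3 := T_le_mul j (1 - x) (by linarith) (by linarith)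
  rw [T_one_sub] at h3
  rw [← h2]
  nlinarith

/-- first digit `0` -/
lemma mem_N_zero {j : ℕ} {y x : ℝ} (h0 : 0 ≤ x) (h1 : x ≤ 1) :
    x / 2 ∈ N j y ↔ x ∈ N (j + 1) (2 * y) := by
  unfold N
  simp only [mem_ofPred_eq, mem_Icc]
  rw [T_half h0 h1]
  push_cast
  constructor
  · rintro ⟨_, h⟩
    exact ⟨⟨h0, h1⟩, by linarith⟩
  · rintro ⟨_, h⟩
    exact ⟨⟨by linarith, by linarith⟩, by linarith⟩

/-- first digit `1` -/
lemma mem_N_one {j : ℕ} {y x : ℝ} (h0 : 0 ≤ x) (h1 : x ≤ 1) :
    (1 + x) / 2 ∈ N (j + 1) y ↔ x ∈ N j (2 * y - (j + 1 + 1)) := by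
  unfold N
  simp only [mem_ofPred_eq, mem_Icc]
  rw [T_half' h0 h1]
  push_cast
  constructor
  · rintro ⟨_, h⟩
    exact ⟨⟨h0, h1⟩, by linarith⟩
  · rintro ⟨_, h⟩
    exact ⟨⟨by linarith, by linarith⟩, by linarith⟩

/-- The map prepending the digit `0`. -/
noncomputable def p0 (x : ℝ) : ℝ := x / 2

/-- The map prepending the digit `1`. -/
noncomputable def p1 (x : ℝ) : ℝ := (1 + x) / 2

lemma N_succ_subset (j : ℕ) (y : ℝ) :
    N (j + 1) y ⊆ p0 '' N (j + 1 + 1) (2 * y) ∪ p1 '' N j (2 * y - (j + 1 + 1)) := by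
  intro x hx
  have h0 := hx.1.1
  have h1 := hx.1.2
  rcases le_total x (1 / 2) with h | h
  · left
    refine ⟨2 * x, ?_, by unfold p0; ring⟩
    rw [← mem_N_zero (by linarith) (by linarith), show 2 * x / 2 = x by ring]
    exact hx
  · right
    refine ⟨2 * x - 1, ?_, by unfold p1; ring⟩
    rw [← mem_N_one (by linarith) (by linarith), show (1 + (2 * x - 1)) / 2 = x by ring]
    exact hx

lemma N_zero_subset (y : ℝ) :
    N 0 y ⊆ p0 '' N 1 (2 * y) ∪ (fun x => 1 - x) '' (p0 '' N 1 (2 * y)) := by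
  intro x hx
  have h0 := hx.1.1
  have h1 := hx.1.2
  rcases le_total x (1 / 2) with h | h
  · left
    refine ⟨2 * x, ?_, by unfold p0; ring⟩
    have := (mem_N_zero (j := 0) (y := y) (x := 2 * x) (by linarith) (by linarith)).1
    rw [show 2 * x / 2 = x by ring] at this
    exact this hx
  · right
    refine ⟨1 - x, ⟨2 * (1 - x), ?_, by unfold p0; ring⟩, by ring⟩
    have := (mem_N_zero (j := 0) (y := y) (x := 2 * (1 - x)) (by linarith) (by linarith)).1
    rw [show 2 * (1 - x) / 2 = 1 - x by ring] at this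
    apply this
    refine ⟨⟨by linarith, by linarith⟩, ?_⟩
    rw [T_one_sub]
    have := hx.2
    simpa using this

/-! ### The finite transition graph, ordinates in units of `1 / 2050` -/

/-- The table of reachable states `(j, A, r)`, where `y = A / 2050`, and `r` is a rank. -/
def table : List (ℕ × ℕ × ℕ) :=
  [(0, 49, 43), (1, 98, 42), (2, 196, 42), (3, 392, 42), (4, 784, 42), (5, 1568, 42),
    (6, 3136, 42), (7, 6272, 42), (8, 12544, 42), (7, 6638, 42), (8, 13276, 42), (7, 8102, 42),
    (8, 16204, 42), (7, 13958, 42), (6, 11516, 42), (5, 8682, 42), (4, 5064, 42), (5, 10128, 42),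
    (4, 7956, 42), (3, 5662, 42), (2, 3124, 42), (3, 6248, 41), (2, 4296, 40), (1, 2442, 39),
    (0, 784, 38), (1, 1568, 37), (2, 3136, 36), (3, 6272, 35), (1, 122, 5), (2, 4344, 34),
    (2, 244, 4), (1, 2538, 33), (3, 488, 3), (0, 976, 32), (4, 976, 2), (1, 1952, 31),
    (5, 1952, 1), (2, 3904, 30), (6, 3904, 0), (1, 1658, 29), (7, 7808, 0), (2, 3316, 28),
    (8, 15616, 0), (1, 482, 27), (7, 12782, 0), (2, 964, 26), (6, 9164, 0), (3, 1928, 25),
    (5, 3978, 0), (4, 3856, 24), (6, 7956, 0), (5, 7712, 23), (5, 1562, 0), (4, 3124, 22),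
    (6, 3124, 0), (5, 6248, 21), (7, 6248, 0), (4, 196, 20), (8, 12496, 0), (5, 392, 19),
    (7, 6542, 0), (6, 784, 18), (8, 13084, 0), (7, 1568, 17), (7, 7718, 0), (8, 3136, 16),
    (8, 15436, 0), (9, 6272, 15), (7, 12422, 0), (10, 12544, 14), (6, 8444, 0), (9, 2538, 13),
    (5, 2538, 0), (10, 5076, 12), (6, 5076, 0), (11, 10152, 11), (7, 10152, 0), (12, 20304, 10),
    (11, 13958, 9), (10, 3316, 8), (11, 6632, 7), (12, 13264, 6), (13, 26528, 5), (12, 24356, 4),
    (11, 22062, 3), (10, 19524, 2), (9, 16498, 1)]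

/-- rank plus one of a state, `0` if the state is not in the table -/
def rk (l : List (ℕ × ℕ × ℕ)) (j A : ℕ) : ℕ :=
  match l with
  | [] => 0
  | (j', A', r) :: l => if j = j' ∧ A = A' then r + 1 else rk l j A

/-- Rank condition along the `0`-edge at `(j, A)`: `0` if the successor has lower rank or is
impossible, `1` if it has the same rank, `2` otherwise. -/
def edge0 (j A r : ℕ) : ℕ :=
  if 2050 + 3 * 2 ^ j * ((j + 1) * 2050) < 3 * 2 ^ j * (2 * A) then 0
  else if rk table (j + 1) (2 * A) = 0 then 2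
  else if rk table (j + 1) (2 * A) ≤ r then 0
  else if rk table (j + 1) (2 * A) = r + 1 then 1 else 2

/-- The same along the `1`-edge at `(j, A)` with `j ≥ 1`. -/
def edge1 (j A r : ℕ) : ℕ :=
  if 2 * A < (j + 1) * 2050 then 0
  else if rk table (j - 1) (2 * A - (j + 1) * 2050) = 0 then 2
  else if rk table (j - 1) (2 * A - (j + 1) * 2050) ≤ r then 0
  else if rk table (j - 1) (2 * A - (j + 1) * 2050) = r + 1 then 1 else 2

/-- The check performed at each entry of the table. -/
def good (e : ℕ × ℕ × ℕ) : Bool :=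
  if e.1 = 0 then edge0 e.1 e.2.1 e.2.2 = 0 else edge0 e.1 e.2.1 e.2.2 + edge1 e.1 e.2.1 e.2.2 ≤ 1

lemma all_good : ∀ e ∈ table, good e = true := by
  decide +kernel

lemma rk_mem (l : List (ℕ × ℕ × ℕ)) {j A r : ℕ} (h : rk l j A = r + 1) : (j, A, r) ∈ l := by
  induction l with
  | nil => simp [rk] at h
  | cons e l ih =>
    obtain ⟨j', A', r'⟩ := e
    unfold rk at h
    split_ifs at h with hc
    · obtain ⟨rfl, rfl⟩ := hc
      have : r' = r := by omega
      subst this
      exact List.mem_cons_self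
    · exact List.mem_cons_of_mem _ (ih h)

lemma edge0_cases {j A r : ℕ} (h : edge0 j A r ≤ 1) :
    (N (j + 1) (2 * ((A : ℝ) / 2050)) = ∅) ∨
    (∃ r', r' < r ∧ rk table (j + 1) (2 * A) = r' + 1) ∨
    (edge0 j A r = 1 ∧ rk table (j + 1) (2 * A) = r + 1) := by
  unfold edge0 at h ⊢
  split_ifs at h ⊢ with h1 h2 h3 h4
  · left
    rw [eq_empty_iff_forall_notMem]
    intro x hx
    have h5 := N_le hx
    have h6 : (2050 : ℝ) + 3 * 2 ^ j * ((j + 1) * 2050) < 3 * 2 ^ j * (2 * A) := by
      exact_mod_cast h1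
    have h7 : (0:ℝ) < 2 ^ j := by positivity
    rw [pow_succ] at h5
    push_cast at h5
    have h8 : (2:ℝ) / 3 / (2 ^ j * 2) = 1 / (3 * 2 ^ j) := by field_simp
    rw [h8] at h5
    have h9 : 2 * ((A:ℝ) / 2050) * (3 * 2 ^ j * 2050) ≤
        ((j:ℝ) + 1 + 1 / (3 * 2 ^ j)) * (3 * 2 ^ j * 2050) :=
      mul_le_mul_of_nonneg_right h5 (by positivity)
    have h10 : ((j:ℝ) + 1 + 1 / (3 * 2 ^ j)) * (3 * 2 ^ j * 2050) =
        3 * 2 ^ j * ((j + 1) * 2050) + 2050 := by field_simp
    have h11 : 2 * ((A:ℝ) / 2050) * (3 * 2 ^ j * 2050) = 3 * 2 ^ j * (2 * A) := by field_simp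
    linarith
  · omega
  · right; left
    exact ⟨rk table (j + 1) (2 * A) - 1, by omega, by omega⟩
  · right; right
    exact ⟨rfl, h4⟩
  · omega

lemma edge1_cases {j A r : ℕ} (h : edge1 (j + 1) A r ≤ 1) :
    (N j (2 * ((A : ℝ) / 2050) - (j + 1 + 1)) = ∅) ∨
    (∃ B : ℕ, 2 * ((A : ℝ) / 2050) - (j + 1 + 1) = (B : ℝ) / 2050 ∧
      ((∃ r', r' < r ∧ rk table j B = r' + 1) ∨
        (edge1 (j + 1) A r = 1 ∧ rk table j B = r + 1))) := by
  unfold edge1 at h ⊢
  rw [Nat.add_sub_cancel] at h ⊢
  split_ifs at h ⊢ with h1 h2 h3 h4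
  · left
    rw [eq_empty_iff_forall_notMem]
    intro x hx
    have h5 := N_nonneg hx
    have h6 : (2 * (A : ℝ)) < ((j:ℝ) + 1 + 1) * 2050 := by exact_mod_cast h1
    linarith
  · omega
  · right
    have h5 : (j + 1 + 1) * 2050 ≤ 2 * A := by omega
    refine ⟨2 * A - (j + 1 + 1) * 2050, ?_, Or.inl
      ⟨rk table j (2 * A - (j + 1 + 1) * 2050) - 1, by omega, by omega⟩⟩
    push_cast [Nat.cast_sub h5]
    ring
  · right
    have h5 : (j + 1 + 1) * 2050 ≤ 2 * A := by omega
    refine ⟨2 * A - (j + 1 + 1) * 2050, ?_, Or.inr ⟨rfl, h4⟩⟩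
    push_cast [Nat.cast_sub h5]
    ring
  · omega

/-! ### Sets that are countable up to a small piece -/

/-- `S` is covered by a countable set and a set of diameter at most `2 ^ (-n)`. -/
def App (n : ℕ) (S : Set ℝ) : Prop :=
  ∃ C D : Set ℝ, C.Countable ∧ (∀ x ∈ D, ∀ y ∈ D, |x - y| ≤ (1 / 2 : ℝ) ^ n) ∧ S ⊆ C ∪ D

lemma App.of_countable {n : ℕ} {S : Set ℝ} (h : S.Countable) : App n S :=
  ⟨S, ∅, h, by simp, by simp⟩

lemma App.mono {n : ℕ} {S S' : Set ℝ} (h : App n S) (hs : S' ⊆ S) : App n S' := by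
  obtain ⟨C, D, h1, h2, h3⟩ := h
  exact ⟨C, D, h1, h2, hs.trans h3⟩

lemma App.union {n : ℕ} {S S' : Set ℝ} (h : App n S) (h' : S'.Countable) : App n (S ∪ S') := by
  obtain ⟨C, D, h1, h2, h3⟩ := h
  refine ⟨C ∪ S', D, h1.union h', h2, ?_⟩
  rintro x (hx | hx)
  · rcases h3 hx with h | h
    · exact Or.inl (Or.inl h)
    · exact Or.inr h
  · exact Or.inl (Or.inr hx)

lemma App.image {n : ℕ} {S : Set ℝ} (h : App n S) {p : ℝ → ℝ}
    (hp : ∀ x y, |p x - p y| = |x - y| / 2) : App (n + 1) (p '' S) := by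
  obtain ⟨C, D, h1, h2, h3⟩ := h
  refine ⟨p '' C, p '' D, h1.image p, ?_, ?_⟩
  · rintro _ ⟨x, hx, rfl⟩ _ ⟨y, hy, rfl⟩
    rw [hp, pow_succ]
    have := h2 x hx y hy
    linarith
  · rw [← image_union]
    exact image_mono h3

lemma countable_of_app {S : Set ℝ} (h : ∀ n, App n S) : S.Countable := by
  choose C D h1 h2 h3 using h
  have h4 : S ⊆ (⋃ n, C n) ∪ (⋂ n, D n) := by
    intro x hx
    by_cases hc : ∃ n, x ∈ C n
    · left
      exact mem_iUnion.2 hc
    · right
      push Not at hc
      rw [mem_iInter]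
      intro n
      rcases h3 n hx with h | h
      · exact absurd h (hc n)
      · exact h
  have h5 : (⋂ n, D n).Subsingleton := by
    intro x hx y hy
    rw [mem_iInter] at hx hy
    have h6 : ∀ n, |x - y| ≤ (1 / 2 : ℝ) ^ n := fun n => h2 n x (hx n) y (hy n)
    have h7 : |x - y| ≤ 0 :=
      ge_of_tendsto' (tendsto_pow_atTop_nhds_zero_of_lt_one (by norm_num) (by norm_num)) h6
    have h8 : x - y = 0 := abs_nonpos_iff.1 h7
    linarith
  exact ((countable_iUnion h1).union h5.countable).mono h4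

lemma p0_dist (x y : ℝ) : |p0 x - p0 y| = |x - y| / 2 := by
  unfold p0
  rw [show x / 2 - y / 2 = (x - y) / 2 by ring, abs_div, abs_two]

lemma p1_dist (x y : ℝ) : |p1 x - p1 y| = |x - y| / 2 := by
  unfold p1
  rw [show (1 + x) / 2 - (1 + y) / 2 = (x - y) / 2 by ring, abs_div, abs_two]

/-- All sets `N j y` of the table are countable. -/
lemma countable_of_rk : ∀ (r j A : ℕ), rk table j A = r + 1 → (N j ((A : ℝ) / 2050)).Countable := by
  intro r
  induction r using Nat.strong_induction_on with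
  | _ r ihr =>
  have key : ∀ (n j A : ℕ), rk table j A = r + 1 → App n (N j ((A : ℝ) / 2050)) := by
    intro n
    induction n with
    | zero =>
      intro j A _
      refine ⟨∅, Icc 0 1, countable_empty, ?_, ?_⟩
      · rintro x ⟨hx0, hx1⟩ y ⟨hy0, hy1⟩
        rw [pow_zero, abs_le]
        constructor <;> linarith
      · intro x hx
        exact Or.inr hx.1
    | succ n ihn =>
      intro j A hjA
      have hgood := all_good _ (rk_mem table hjA)
      rcases j with _ | j
      · have he : edge0 0 A r = 0 := by simpa [good] using hgood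
        have hc := edge0_cases (j := 0) (A := A) (r := r) (by omega)
        have hcount : (N 1 (2 * ((A : ℝ) / 2050))).Countable := by
          rcases hc with h | ⟨r', hr', hrk⟩ | ⟨h, _⟩
          · rw [zero_add] at h
            rw [h]
            exact countable_empty
          · have := ihr r' hr' _ _ hrk
            push_cast at this
            rw [mul_div_assoc] at this
            simpa using this
          · omega
        exact App.of_countable
          (((hcount.image p0).union ((hcount.image p0).image _)).mono (N_zero_subset _))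
      · have he : edge0 (j + 1) A r + edge1 (j + 1) A r ≤ 1 := by simpa [good] using hgood
        have hc0 := edge0_cases (j := j + 1) (A := A) (r := r) (by omega)
        have hc1 := edge1_cases (j := j) (A := A) (r := r) (by omega)
        have e0 : (2 * ((A : ℝ) / 2050)) = ((2 * A : ℕ) : ℝ) / 2050 := by push_cast; ring
        apply App.mono _ (N_succ_subset j _)
        -- the `0`-branch
        have hb0 : (N (j + 1 + 1) (2 * ((A : ℝ) / 2050))).Countable ∨
            (edge0 (j + 1) A r = 1 ∧ App n (N (j + 1 + 1) (2 * ((A : ℝ) / 2050)))) := by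
          rcases hc0 with h | ⟨r', hr', hrk⟩ | ⟨h, hrk⟩
          · left
            rw [h]
            exact countable_empty
          · left
            rw [e0]
            exact ihr r' hr' _ _ hrk
          · right
            rw [e0]
            exact ⟨h, ihn _ _ hrk⟩
        have hb1 : (N j (2 * ((A : ℝ) / 2050) - (j + 1 + 1))).Countable ∨
            (edge1 (j + 1) A r = 1 ∧ App n (N j (2 * ((A : ℝ) / 2050) - (j + 1 + 1)))) := by
          rcases hc1 with h | ⟨B, hB, ⟨r', hr', hrk⟩ | ⟨h, hrk⟩⟩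
          · left
            rw [h]
            exact countable_empty
          · left
            rw [hB]
            exact ihr r' hr' _ _ hrk
          · right
            rw [hB]
            exact ⟨h, ihn _ _ hrk⟩
        rcases hb0 with h0 | ⟨h0, h0'⟩
        · rcases hb1 with h1 | ⟨h1, h1'⟩
          · exact App.of_countable ((h0.image _).union (h1.image _))
          · rw [union_comm]
            exact (h1'.image p1_dist).union (h0.image _)
        · rcases hb1 with h1 | ⟨h1, h1'⟩
          · exact (h0'.image p0_dist).union (h1.image _)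
          · omega
  intro j A hjA
  exact countable_of_app (fun n => key n j A hjA)

/-! ### Infinitely many points -/

/-- Prepend a word of binary digits. -/
noncomputable def pt : List Bool → ℝ → ℝ
  | [], x => x
  | false :: w, x => p0 (pt w x)
  | true :: w, x => p1 (pt w x)

/-- Follow a word of digits in the transition graph. -/
def run : List Bool → ℕ → ℕ → Option (ℕ × ℕ)
  | [], j, A => some (j, A)
  | false :: w, j, A => run w (j + 1) (2 * A)
  | true :: w, j, A =>
    if 1 ≤ j ∧ (j + 1) * 2050 ≤ 2 * A then run w (j - 1) (2 * A - (j + 1) * 2050) else none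

lemma run_spec (w : List Bool) : ∀ (j A j' A' : ℕ), run w j A = some (j', A') →
    ∀ x ∈ N j' ((A' : ℝ) / 2050), pt w x ∈ N j ((A : ℝ) / 2050) := by
  induction w with
  | nil =>
    intro j A j' A' h x hx
    simp only [run, Option.some.injEq, Prod.mk.injEq] at h
    obtain ⟨rfl, rfl⟩ := h
    exact hx
  | cons b w ih =>
    intro j A j' A' h x hx
    cases b with
    | false =>
      have h1 := ih _ _ _ _ h x hx
      show pt w x / 2 ∈ _
      rw [mem_N_zero h1.1.1 h1.1.2]
      push_cast at h1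
      rw [← mul_div_assoc]
      exact h1
    | true =>
      unfold run at h
      split_ifs at h with hc
      obtain ⟨j, rfl⟩ : ∃ i, j = i + 1 := ⟨j - 1, by omega⟩
      have h1 := ih _ _ _ _ h x hx
      show (1 + pt w x) / 2 ∈ _
      rw [mem_N_one h1.1.1 h1.1.2]
      rw [Nat.add_sub_cancel] at h1
      have e : 2 * ((A : ℝ) / 2050) - (j + 1 + 1) =
          ((2 * A - (j + 1 + 1) * 2050 : ℕ) : ℝ) / 2050 := by
        push_cast [Nat.cast_sub hc.2]
        ring
      rw [e]
      exact h1

lemma pt_inj (w : List Bool) : Function.Injective (pt w) := by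
  induction w with
  | nil => intro x y h; exact h
  | cons b w ih =>
    cases b with
    | false =>
      intro x y h
      apply ih
      have h' : pt w x / 2 = pt w y / 2 := h
      linarith
    | true =>
      intro x y h
      apply ih
      have h' : (1 + pt w x) / 2 = (1 + pt w y) / 2 := h
      linarith

/-- The cyclic word at the state `(2, 3124 / 2050)`. -/
def cyc : List Bool :=
  [true, false, false, false, false, false, false, false, true, false, true, false, true, true,
    true, true, false, true, true, true]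

/-- A word leading from the state `(0, 49 / 2050)` to `(2, 3124 / 2050)`. -/
def pre : List Bool :=
  [false, false, false, false, false, false, false, false, true, false, true, false, true, true,
    true, true, false, true, true, true]

lemma N_infinite : (N 2 ((3124 : ℕ) / 2050 : ℝ)).Infinite := by
  -- a point in the `0`-branch
  obtain ⟨z, hz, hTz⟩ := T_surj (y := ((784 : ℕ) : ℝ) / 2050) (by positivity) (by norm_num)
  have hz' : z ∈ N 0 (((784 : ℕ) : ℝ) / 2050) := ⟨hz, by rw [hTz]; push_cast; ring⟩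
  set c := pt [false, true, true, true] z with hc
  have hcN : c ∈ N 2 (((3124 : ℕ) : ℝ) / 2050) :=
    run_spec [false, true, true, true] 2 3124 0 784 (by decide +kernel) z hz'
  have hc1 : c < 1 / 2 := by
    have h1 : c ≤ 1 / 2 := by
      have h2 : pt [true, true, true] z ∈ N 3 (((6248 : ℕ) : ℝ) / 2050) :=
        run_spec [true, true, true] 3 6248 0 784 (by decide +kernel) z hz'
      have h3 := h2.1.2
      show pt [true, true, true] z / 2 ≤ 1 / 2
      linarith
    rcases h1.lt_or_eq with h | h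
    · exact h
    · exfalso
      have h2 := hcN.2
      rw [h] at h2
      have h3 : T (1 / 2) = 1 / 2 := by
        have h4 := T_half (x := 1) (by norm_num) (by norm_num)
        have h5 : T 1 = 0 := by exact_mod_cast T_int 1
        rw [h5] at h4
        linarith
      rw [h3] at h2
      norm_num at h2
  have hmaps : ∀ x ∈ N 2 (((3124 : ℕ) : ℝ) / 2050), pt cyc x ∈ N 2 (((3124 : ℕ) : ℝ) / 2050) :=
    run_spec cyc 2 3124 2 3124 (by decide +kernel)
  have hge : ∀ x ∈ N 2 (((3124 : ℕ) : ℝ) / 2050), 1 / 2 ≤ pt cyc x := by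
    intro x hx
    have h1 : pt cyc.tail x ∈ N 1 (((98 : ℕ) : ℝ) / 2050) :=
      run_spec cyc.tail 1 98 2 3124 (by decide +kernel) x hx
    have h2 := h1.1.1
    show 1 / 2 ≤ (1 + pt cyc.tail x) / 2
    linarith
  -- the iterates of `c` under `pt cyc`
  have hiter : ∀ n, (pt cyc)^[n] c ∈ N 2 (((3124 : ℕ) : ℝ) / 2050) := by
    intro n
    induction n with
    | zero => exact hcN
    | succ n ih =>
      rw [Function.iterate_succ_apply']
      exact hmaps _ ih
  have hinj : Function.Injective (fun n => (pt cyc)^[n] c) := by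
    have h1 : ∀ n k, (pt cyc)^[n] c ≠ (pt cyc)^[n + (k + 1)] c := by
      intro n k h
      rw [Function.iterate_add_apply] at h
      have h2 := (pt_inj cyc).iterate n h
      rw [Function.iterate_succ_apply'] at h2
      have h3 := hge _ (hiter k)
      rw [← h2] at h3
      linarith
    intro n m h
    rcases lt_trichotomy n m with hlt | heq | hgt
    · obtain ⟨k, rfl⟩ := Nat.exists_eq_add_of_lt hlt
      exact absurd h (h1 n k)
    · exact heq
    · obtain ⟨k, rfl⟩ := Nat.exists_eq_add_of_lt hgt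
      exact absurd h.symm (h1 m k)
  apply (infinite_range_of_injective hinj).mono
  rintro _ ⟨n, rfl⟩
  exact hiter n

lemma levelSet_eq (y : ℝ) : levelSet y = N 0 y := by
  unfold levelSet N
  ext x
  simp

/-! ### Dyadic rationals -/

lemma T_dyadic (m : ℕ) : ∀ k : ℤ, ∃ K : ℤ, T ((k : ℝ) / 2 ^ m) = (K : ℝ) / 2 ^ m := by
  induction m with
  | zero =>
    intro k
    refine ⟨0, ?_⟩
    rw [pow_zero, div_one, T_int]
    simp
  | succ m ih =>
    intro k
    obtain ⟨K, hK⟩ := ih k
    refine ⟨|k - round ((k : ℝ) / 2 ^ (m + 1)) * 2 ^ (m + 1)| + K, ?_⟩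
    rw [T_rec]
    have e : 2 * ((k : ℝ) / 2 ^ (m + 1)) = (k : ℝ) / 2 ^ m := by
      rw [pow_succ]
      field_simp
    rw [e, hK]
    unfold phi
    have hpos : (0:ℝ) < 2 ^ (m + 1) := by positivity
    have e2 : (k : ℝ) / 2 ^ (m + 1) - round ((k : ℝ) / 2 ^ (m + 1)) =
        (k - round ((k : ℝ) / 2 ^ (m + 1)) * 2 ^ (m + 1)) / 2 ^ (m + 1) := by
      field_simp
    rw [e2, abs_div, abs_of_pos hpos]
    push_cast
    rw [pow_succ]
    field_simp

lemma not_dyadic (m : ℕ) (k : ℤ) : T ((k : ℝ) / 2 ^ m) ≠ 49 / 2050 := by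
  intro h
  obtain ⟨K, hK⟩ := T_dyadic m k
  rw [hK] at h
  have hpos : (0:ℝ) < 2 ^ m := by positivity
  have h1 : (K : ℝ) * 2050 = 49 * 2 ^ m := by
    field_simp at h
    linarith
  have h2 : K * 2050 = 49 * 2 ^ m := by exact_mod_cast h1
  have h3 : (5:ℤ) ∣ 49 * 2 ^ m := ⟨K * 410, by rw [← h2]; ring⟩
  have h4 : Prime (5:ℤ) := by norm_num
  rcases h4.dvd_or_dvd h3 with h5 | h5
  · norm_num at h5
  · have := h4.dvd_of_dvd_pow h5
    norm_num at this

/-- The ordinate `49 / 2050` lies in `[0, 2/3]`, its level set is countably infinite, and it is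
different from `T x` for every dyadic rational `x ∈ [0,1]`. -/
theorem result : (49 / 2050 : ℝ) ∈ Icc (0:ℝ) (2 / 3) ∧
    (levelSet (49 / 2050)).Countable ∧ (levelSet (49 / 2050)).Infinite ∧
    ∀ (m k : ℕ), k ≤ 2 ^ m → T ((k : ℝ) / 2 ^ m) ≠ 49 / 2050 := by
  refine ⟨⟨by norm_num, by norm_num⟩, ?_, ?_, ?_⟩
  · rw [levelSet_eq]
    have h := countable_of_rk 43 0 49 (by decide +kernel)
    exact_mod_cast h
  · rw [levelSet_eq]
    have h1 := N_infinite.image (pt_inj pre).injOn
    apply h1.mono
    rintro _ ⟨x, hx, rfl⟩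
    have h2 := run_spec pre 0 49 2 3124 (by decide +kernel) x hx
    exact_mod_cast h2
  · intro m k _
    have := not_dyadic m (k : ℤ)
    rw [Int.cast_natCast] at this
    exact this

end Pool.Agent.Results.MP_4a5b11_an.NonDyadicCountable
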